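import Pool.Agent.Helper23.GK.StB

/-!
# Project GK, module GRO: growth of `L(s, χ)` near `σ = 1`
-/

set_option autoImplicit false

namespace Pool.Agent.Helper45.GK

open Finset ArithmeticFunction
open Pool.Agent.Helper23.GK
open Pool.Agent.Helper2.MR (ch)

private lemma dyGRO (f : ℕ → ℂ) (J : ℕ) :
    ∑ n ∈ Icc 1 ((2 : ℕ) ^ J), f n = f 1 + ∑ j ∈ range J, ∑ n ∈ Ioc ((2 : ℕ) ^ j) (2 ^ (j + 1)), f n := by
  induction J with
  | zero => simp
  | succ J ih =>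
    rw [sum_range_succ, ← add_assoc, ← ih]
    have h1 : ∀ m : ℕ, Icc 1 m = Ioc 0 m := fun m => by
      ext x
      simp only [mem_Icc, mem_Ioc]
      omega
    rw [h1, h1, sum_Ioc_consecutive _ (Nat.zero_le _)
      (Nat.pow_le_pow_right (by norm_num) (by omega))]

private lemma abelIdGRO (c : ℕ → ℂ) (w : ℕ → ℝ) (a b : ℕ) (hab : a ≤ b) :
    ∑ n ∈ Ioc a b, ((w n : ℝ) : ℂ) * c n =
      ((w (b + 1) : ℝ) : ℂ) * ∑ n ∈ Ioc a b, c n +
        ∑ m ∈ Ioc a b, (((w m - w (m + 1) : ℝ)) : ℂ) * ∑ n ∈ Ioc a m, c n := by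
  induction b, hab using Nat.le_induction with
  | base => simp
  | succ b hab ih =>
    rw [← insert_Ioc_right_eq_Ioc_add_one (by omega : a ≤ b), sum_insert (by simp),
      sum_insert (by simp), sum_insert (by simp), ih,
      ← insert_Ioc_right_eq_Ioc_add_one (by omega : a ≤ b), sum_insert (by simp)]
    push_cast
    ring

private lemma teleGRO (w : ℕ → ℝ) (a b : ℕ) (hab : a ≤ b) :
    ∑ m ∈ Ioc a b, (w m - w (m + 1)) = w (a + 1) - w (b + 1) := by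
  induction b, hab using Nat.le_induction with
  | base => simp
  | succ b hab ih =>
    rw [← insert_Ioc_right_eq_Ioc_add_one (by omega : a ≤ b), sum_insert (by simp), ih]
    ring

private lemma abelGRO (c : ℕ → ℂ) (w : ℕ → ℝ) (a b : ℕ) (B : ℝ) (hab : a ≤ b)
    (hw : ∀ n, a < n → 0 ≤ w n) (hw' : ∀ n, a < n → w (n + 1) ≤ w n)
    (hB : ∀ m, a ≤ m → m ≤ b → ‖∑ n ∈ Ioc a m, c n‖ ≤ B) :
    ‖∑ n ∈ Ioc a b, ((w n : ℝ) : ℂ) * c n‖ ≤ B * w (a + 1) := by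
  rw [abelIdGRO c w a b hab]
  have h1 : ‖((w (b + 1) : ℝ) : ℂ) * ∑ n ∈ Ioc a b, c n‖ ≤ w (b + 1) * B := by
    rw [norm_mul, Complex.norm_real, Real.norm_of_nonneg (hw _ (by omega))]
    exact mul_le_mul_of_nonneg_left (hB b hab le_rfl) (hw _ (by omega))
  have h2 : ‖∑ m ∈ Ioc a b, (((w m - w (m + 1) : ℝ)) : ℂ) * ∑ n ∈ Ioc a m, c n‖ ≤
      ∑ m ∈ Ioc a b, (w m - w (m + 1)) * B := by
    refine (norm_sum_le _ _).trans (sum_le_sum fun m hm => ?_)
    rw [mem_Ioc] at hm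
    rw [norm_mul, Complex.norm_real, Real.norm_of_nonneg (by linarith [hw' m hm.1])]
    exact mul_le_mul_of_nonneg_left (hB m hm.1.le hm.2) (by linarith [hw' m hm.1])
  rw [← sum_mul, teleGRO w a b hab] at h2
  calc _ ≤ w (b + 1) * B + (w (a + 1) - w (b + 1)) * B := (norm_add_le _ _).trans (add_le_add h1 h2)
    _ = _ := by ring

private lemma resGRO {q : ℕ} [NeZero q] (χ : DirichletCharacter ℂ q) (g : ℕ → ℂ) (S : Finset ℕ)
    (B : ℝ) (hB : ∀ u < q, ‖∑ n ∈ S.filter (fun n => n ≡ u [MOD q]), g n‖ ≤ B) :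
    ‖∑ n ∈ S, χ (n : ZMod q) * g n‖ ≤ q * B := by
  have hq : 0 < q := Nat.pos_of_ne_zero (NeZero.ne q)
  have h1 : ∑ n ∈ S, χ (n : ZMod q) * g n =
      ∑ u ∈ range q, χ (u : ZMod q) * ∑ n ∈ S.filter (fun n => n ≡ u [MOD q]), g n := by
    rw [← sum_fiberwise_of_maps_to (s := S) (t := range q) (g := fun n => n % q)
      (fun n _ => mem_range.2 (Nat.mod_lt _ hq))]
    refine sum_congr rfl fun u hu => ?_
    rw [mem_range] at hu
    rw [mul_sum]
    have h2 : S.filter (fun n => n % q = u) = S.filter (fun n => n ≡ u [MOD q]) := by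
      refine filter_congr fun n _ => ?_
      unfold Nat.ModEq
      rw [Nat.mod_eq_of_lt hu]
    rw [h2]
    refine sum_congr rfl fun n hn => ?_
    rw [mem_filter] at hn
    rw [(ZMod.natCast_eq_natCast_iff n u q).2 hn.2]
  rw [h1]
  calc _ ≤ ∑ u ∈ range q, B := by
        refine (norm_sum_le _ _).trans (sum_le_sum fun u hu => ?_)
        rw [mem_range] at hu
        rw [norm_mul]
        calc _ ≤ 1 * ‖∑ n ∈ S.filter (fun n => n ≡ u [MOD q]), g n‖ :=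
              mul_le_mul_of_nonneg_right (DirichletCharacter.norm_le_one χ _) (norm_nonneg _)
          _ ≤ B := by rw [one_mul]; exact hB u hu
    _ = q * B := by simp

private lemma cpowGRO (σ t : ℝ) (n : ℕ) (hn : 0 < n) :
    (n : ℂ) ^ (-((σ : ℂ) + t * Complex.I)) = (((n : ℝ) ^ (-σ) : ℝ) : ℂ) * ch t n := by
  have h0 : (n : ℂ) ≠ 0 := by exact_mod_cast hn.ne'
  rw [Complex.cpow_def_of_ne_zero h0, ← Complex.natCast_log, Real.rpow_def_of_pos (by exact_mod_cast hn), ch,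
    Complex.ofReal_exp, ← Complex.exp_add]
  congr 1
  push_cast
  ring

private lemma chNormGRO (t : ℝ) (n : ℕ) : ‖ch t n‖ = 1 := by
  rw [ch, Complex.norm_exp_ofReal_mul_I]

private lemma elGRO (t : ℝ) (ht : 2 ≤ |t|) : 1 < el t := by
  unfold el
  rw [Real.lt_log_iff_exp_lt (by positivity)]
  have := Real.exp_one_lt_d9
  linarith

private lemma vvGRO (t : ℝ) (ht : 2 ≤ |t|) : 1 ≤ vv t :=
  Real.one_le_rpow (elGRO t ht).le (by norm_num)

private lemma keyGRO (t : ℝ) (ht : 2 ≤ |t|) :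
    (1 / |t| + Real.exp (-(el t) ^ (1 / 2 : ℝ))) * Real.exp (5 * el t / (2 * vv t)) ≤
      4 * Real.exp 4 := by
  have h1 := elGRO t ht
  set x := el t with hx
  have hx0 : 0 < x := by linarith
  set y := x ^ (1 / 10 : ℝ) with hy
  have hy1 : 1 ≤ y := Real.one_le_rpow h1.le (by norm_num)
  have h5 : x ^ (1 / 2 : ℝ) = y ^ 5 := by
    rw [hy, ← Real.rpow_natCast, ← Real.rpow_mul hx0.le]
    norm_num
  have h9 : vv t = y ^ 9 := by
    rw [vv, ← hx, hy, ← Real.rpow_natCast, ← Real.rpow_mul hx0.le]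
    norm_num
  have h10 : x = y ^ 10 := by
    rw [hy, ← Real.rpow_natCast, ← Real.rpow_mul hx0.le]
    norm_num
  have hy0 : 0 < y := by linarith
  have he : 5 * x / (2 * vv t) = 5 / 2 * y := by
    rw [h9, h10]
    field_simp
  have ht1 : 1 / |t| ≤ 3 * Real.exp (-y ^ 5) := by
    have h3 : Real.exp x = |t| + 3 := Real.exp_log (by positivity)
    have h4 : y ^ 5 ≤ x := by
      rw [h10]
      exact pow_le_pow_right₀ hy1 (by norm_num)
    have h6 : Real.exp (y ^ 5) ≤ |t| + 3 := by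
      rw [← h3]
      exact Real.exp_le_exp.2 h4
    rw [Real.exp_neg, div_le_iff₀ (by linarith), ← div_eq_mul_inv, div_mul_eq_mul_div,
      le_div_iff₀ (Real.exp_pos _)]
    linarith
  rw [he, h5]
  have h7 : (1 / |t| + Real.exp (-y ^ 5)) ≤ 4 * Real.exp (-y ^ 5) := by linarith
  calc _ ≤ 4 * Real.exp (-y ^ 5) * Real.exp (5 / 2 * y) :=
        mul_le_mul_of_nonneg_right h7 (Real.exp_pos _).le
    _ = 4 * Real.exp (-y ^ 5 + 5 / 2 * y) := by rw [Real.exp_add]; ring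
    _ ≤ 4 * Real.exp 4 := by
        refine mul_le_mul_of_nonneg_left (Real.exp_le_exp.2 ?_) (by norm_num)
        have h8 : 1 + 5 * (y - 1) ≤ y ^ 5 := by
          have := one_add_mul_le_pow (a := y - 1) (by linarith) 5
          simpa using this
        linarith

private lemma powGRO (x σ t : ℝ) (ht : 2 ≤ |t|) (hσ : 1 - 1 / (2 * vv t) ≤ σ) (hx : 1 ≤ x)
    (M : ℝ) (hM : Real.log x ≤ M) : x ^ (1 - σ) ≤ Real.exp (M / (2 * vv t)) := by
  have hv := vvGRO t ht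
  have h0 : 0 ≤ Real.log x := Real.log_nonneg hx
  rw [Real.rpow_def_of_pos (by linarith)]
  refine Real.exp_le_exp.2 ?_
  calc _ ≤ Real.log x * (1 / (2 * vv t)) := mul_le_mul_of_nonneg_left (by linarith) h0
    _ ≤ M * (1 / (2 * vv t)) := mul_le_mul_of_nonneg_right hM (by positivity)
    _ = _ := by ring

private lemma blkGRO (C : ℝ) (hC : 0 < C) (hE : ∀ (N N' q u : ℕ) (t : ℝ), N ≤ N' → N' ≤ 2 * N →
    1 ≤ q → 1 ≤ |t| → Real.exp (vv t) ≤ N →
    ‖∑ n ∈ (Ioc N N').filter (fun n => n ≡ u [MOD q]), ch t n‖ ≤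
      C * q * N * (1 / |t| + Real.exp (-(el t) ^ (1 / 2 : ℝ))))
    (q : ℕ) [NeZero q] (χ : DirichletCharacter ℂ q) (σ t : ℝ) (ht : 2 ≤ |t|)
    (hσ : 1 - 1 / (2 * vv t) ≤ σ) (j : ℕ) (hj : Real.log ((2 : ℝ) ^ j) ≤ 5 * el t) :
    ‖∑ n ∈ Ioc ((2 : ℕ) ^ j) (2 ^ (j + 1)), χ (n : ZMod q) * (n : ℂ) ^ (-((σ : ℂ) + t * Complex.I))‖ ≤
      (4 * Real.exp 4 * C + 2) * (q : ℝ) ^ 2 := by
  have hv := vvGRO t ht
  have hq : 1 ≤ q := Nat.pos_of_ne_zero (NeZero.ne q)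
  have hqR : (1 : ℝ) ≤ q := by exact_mod_cast hq
  have hσ0 : 0 ≤ σ := by
    have : 1 / (2 * vv t) ≤ 1 / 2 := by
      apply one_div_le_one_div_of_le (by norm_num)
      linarith
    linarith
  have h2j : (1 : ℝ) ≤ (2 : ℝ) ^ j := one_le_pow₀ (by norm_num)
  have hq2 : (1 : ℝ) ≤ (q : ℝ) ^ 2 := one_le_pow₀ hqR
  have he4 := Real.exp_pos 4
  by_cases hc : Real.exp (vv t) ≤ 2 ^ j
  · -- ES1
    have h1 : ∑ n ∈ Ioc ((2 : ℕ) ^ j) (2 ^ (j + 1)), χ (n : ZMod q) *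
        (n : ℂ) ^ (-((σ : ℂ) + t * Complex.I)) =
        ∑ n ∈ Ioc ((2 : ℕ) ^ j) (2 ^ (j + 1)), (((n : ℝ) ^ (-σ) : ℝ) : ℂ) *
          (χ (n : ZMod q) * ch t n) := by
      refine sum_congr rfl fun n hn => ?_
      rw [mem_Ioc] at hn
      rw [cpowGRO σ t n (by omega)]
      ring
    rw [h1]
    set Q : ℝ := (1 / |t| + Real.exp (-(el t) ^ (1 / 2 : ℝ))) with hQ
    have hQ0 : 0 ≤ Q := by positivity
    have h2 := abelGRO (fun n => χ (n : ZMod q) * ch t n) (fun n => (n : ℝ) ^ (-σ)) (2 ^ j)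
      (2 ^ (j + 1)) (q * (C * q * ((2 ^ j : ℕ) : ℝ) * Q))
      (Nat.pow_le_pow_right (by norm_num) (by omega))
      (fun n _ => by positivity)
      (fun n hn => by
        have hn0 : (0 : ℝ) < n := by
          have : 0 < n := lt_of_le_of_lt (Nat.zero_le _) hn
          exact_mod_cast this
        push_cast
        exact Real.rpow_le_rpow_of_nonpos hn0 (by linarith) (by linarith))
      (fun m hm1 hm2 => resGRO χ (fun n => ch t n) _ _ fun u _ =>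
        hE (2 ^ j) m q u t hm1 (by rw [pow_succ] at hm2; omega) hq (by linarith)
          (by push_cast; exact hc))
    refine h2.trans ?_
    have h3 : (((2 ^ j + 1 : ℕ) : ℝ)) ^ (-σ) ≤ ((2 : ℝ) ^ j) ^ (-σ) := by
      refine Real.rpow_le_rpow_of_nonpos (by positivity) ?_ (by linarith)
      push_cast
      linarith
    have h4 : ((2 : ℝ) ^ j) * ((2 : ℝ) ^ j) ^ (-σ) ≤ Real.exp (5 * el t / (2 * vv t)) := by
      have h5 := powGRO ((2 : ℝ) ^ j) σ t ht hσ h2j _ hj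
      have h6 : ((2 : ℝ) ^ j) * ((2 : ℝ) ^ j) ^ (-σ) = ((2 : ℝ) ^ j) ^ (1 - σ) := by
        rw [sub_eq_add_neg, Real.rpow_add (by positivity), Real.rpow_one]
      rw [h6]
      exact h5
    have hk := keyGRO t ht
    calc (q : ℝ) * (C * q * ((2 ^ j : ℕ) : ℝ) * Q) * (((2 ^ j + 1 : ℕ) : ℝ)) ^ (-σ)
        ≤ (q : ℝ) * (C * q * ((2 ^ j : ℕ) : ℝ) * Q) * ((2 : ℝ) ^ j) ^ (-σ) :=
          mul_le_mul_of_nonneg_left h3 (by positivity)
      _ = C * (q : ℝ) ^ 2 * (Q * (((2 : ℝ) ^ j) * ((2 : ℝ) ^ j) ^ (-σ))) := by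
          push_cast
          ring
      _ ≤ C * (q : ℝ) ^ 2 * (Q * Real.exp (5 * el t / (2 * vv t))) := by gcongr
      _ ≤ C * (q : ℝ) ^ 2 * (4 * Real.exp 4) := by gcongr
      _ ≤ _ := by nlinarith
  · -- trivial bound
    push Not at hc
    have h1 : ‖∑ n ∈ Ioc ((2 : ℕ) ^ j) (2 ^ (j + 1)), χ (n : ZMod q) *
        (n : ℂ) ^ (-((σ : ℂ) + t * Complex.I))‖ ≤
        ∑ n ∈ Ioc ((2 : ℕ) ^ j) (2 ^ (j + 1)), ((2 : ℝ) ^ j) ^ (-σ) := by
      refine (norm_sum_le _ _).trans (sum_le_sum fun n hn => ?_)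
      rw [mem_Ioc] at hn
      have hn0 : 0 < n := by omega
      rw [norm_mul, cpowGRO σ t n hn0, norm_mul, chNormGRO, mul_one, Complex.norm_real,
        Real.norm_of_nonneg (by positivity)]
      calc _ ≤ 1 * (n : ℝ) ^ (-σ) :=
            mul_le_mul_of_nonneg_right (DirichletCharacter.norm_le_one χ _) (by positivity)
        _ ≤ _ := by
            rw [one_mul]
            refine Real.rpow_le_rpow_of_nonpos (by positivity) ?_ (by linarith)
            have : ((2 ^ j : ℕ) : ℝ) ≤ n := by exact_mod_cast hn.1.le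
            push_cast at this
            exact this
    have h2 : ∑ n ∈ Ioc ((2 : ℕ) ^ j) (2 ^ (j + 1)), ((2 : ℝ) ^ j) ^ (-σ) =
        ((2 : ℝ) ^ j) ^ (1 - σ) := by
      rw [sum_const, Nat.card_Ioc, nsmul_eq_mul, sub_eq_add_neg, Real.rpow_add (by positivity),
        Real.rpow_one]
      congr 1
      rw [pow_succ]
      have : 2 ^ j * 2 - 2 ^ j = 2 ^ j := by omega
      rw [this]
      push_cast
      rfl
    have h3 := powGRO ((2 : ℝ) ^ j) σ t ht hσ h2j (vv t)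
      (by rw [Real.log_le_iff_le_exp (by positivity)]; exact hc.le)
    have h4 : Real.exp (vv t / (2 * vv t)) ≤ 2 := by
      have h5 : vv t / (2 * vv t) = 1 / 2 := by
        field_simp
      rw [h5]
      have h6 := Real.exp_one_lt_d9
      have h7 : Real.exp (1 / 2) ^ 2 = Real.exp 1 := by
        rw [← Real.exp_nat_mul]
        norm_num
      nlinarith [Real.exp_pos (1 / 2 : ℝ)]
    calc _ ≤ 2 := (h1.trans (h2.le.trans (h3.trans h4)))
      _ ≤ 2 * (q : ℝ) ^ 2 := by linarith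
      _ ≤ _ := by
          have : 0 ≤ 4 * Real.exp 4 * C * (q : ℝ) ^ 2 := by positivity
          linarith

/-- cutoff -/
private lemma cutGRO (q : ℕ) (hq : 1 ≤ q) (t : ℝ) (ht : 2 ≤ |t|) (hl : Real.log q ≤ el t) :
    ∃ J : ℕ, ((q : ℝ) * (|t| + 3)) ^ 2 ≤ (2 : ℝ) ^ J ∧ Real.log ((2 : ℝ) ^ J) ≤ 5 * el t ∧
      (J : ℝ) ≤ 10 * el t := by
  have he := elGRO t ht
  have hqR : (1 : ℝ) ≤ q := by exact_mod_cast hq
  have h1 : (1 : ℝ) ≤ ((q : ℝ) * (|t| + 3)) ^ 2 := one_le_pow₀ (by nlinarith)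
  obtain ⟨n, hn1, hn2⟩ := exists_nat_pow_near h1 (by norm_num : (1 : ℝ) < 2)
  have h2 : Real.log ((2 : ℝ) ^ (n + 1)) ≤ 5 * el t := by
    have h3 : Real.log ((2 : ℝ) ^ n) ≤ Real.log (((q : ℝ) * (|t| + 3)) ^ 2) :=
      Real.log_le_log (by positivity) hn1
    rw [Real.log_pow (n := 2), Real.log_mul (by positivity) (by positivity)] at h3
    have h4 : Real.log (|t| + 3) = el t := rfl
    rw [h4] at h3
    rw [pow_succ, Real.log_mul (by positivity) (by norm_num)]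
    have := Real.log_two_lt_d9
    push_cast at h3
    linarith
  refine ⟨n + 1, hn2.le, h2, ?_⟩
  rw [Real.log_pow] at h2
  have := Real.log_two_gt_d9
  have h5 : (0 : ℝ) ≤ ((n + 1 : ℕ) : ℝ) := Nat.cast_nonneg _
  nlinarith

private lemma sumGRO (C : ℝ) (hC : 0 < C) (hE : ∀ (N N' q u : ℕ) (t : ℝ), N ≤ N' → N' ≤ 2 * N →
    1 ≤ q → 1 ≤ |t| → Real.exp (vv t) ≤ N →
    ‖∑ n ∈ (Ioc N N').filter (fun n => n ≡ u [MOD q]), ch t n‖ ≤
      C * q * N * (1 / |t| + Real.exp (-(el t) ^ (1 / 2 : ℝ))))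
    (q : ℕ) [NeZero q] (χ : DirichletCharacter ℂ q) (σ t : ℝ) (ht : 2 ≤ |t|)
    (hσ : 1 - 1 / (2 * vv t) ≤ σ) (J : ℕ) (hJ : Real.log ((2 : ℝ) ^ J) ≤ 5 * el t)
    (hJ' : (J : ℝ) ≤ 10 * el t) :
    ‖∑ n ∈ Icc 1 ((2 : ℕ) ^ J), χ (n : ZMod q) * (n : ℂ) ^ (-((σ : ℂ) + t * Complex.I))‖ ≤
      (1 + 10 * (4 * Real.exp 4 * C + 2)) * (q : ℝ) ^ 2 * el t := by
  have he := elGRO t ht
  have hq : 1 ≤ q := Nat.pos_of_ne_zero (NeZero.ne q)
  have hqR : (1 : ℝ) ≤ q := by exact_mod_cast hq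
  have hq2 : (1 : ℝ) ≤ (q : ℝ) ^ 2 := one_le_pow₀ hqR
  rw [dyGRO]
  have h1 : ‖χ ((1 : ℕ) : ZMod q) * ((1 : ℕ) : ℂ) ^ (-((σ : ℂ) + t * Complex.I))‖ ≤ 1 := by
    have h1' : (((1 : ℕ) : ℂ)) ^ (-((σ : ℂ) + t * Complex.I)) = 1 := by
      rw [Nat.cast_one, Complex.one_cpow]
    rw [h1', mul_one]
    exact DirichletCharacter.norm_le_one χ _
  have h2 : ‖∑ j ∈ range J, ∑ n ∈ Ioc ((2 : ℕ) ^ j) (2 ^ (j + 1)), χ (n : ZMod q) *
      (n : ℂ) ^ (-((σ : ℂ) + t * Complex.I))‖ ≤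
      ∑ j ∈ range J, (4 * Real.exp 4 * C + 2) * (q : ℝ) ^ 2 := by
    refine (norm_sum_le _ _).trans (sum_le_sum fun j hj => ?_)
    rw [mem_range] at hj
    refine blkGRO C hC hE q χ σ t ht hσ j (le_trans ?_ hJ)
    exact Real.log_le_log (by positivity) (pow_le_pow_right₀ (by norm_num) hj.le)
  rw [sum_const, card_range, nsmul_eq_mul] at h2
  refine (norm_add_le _ _).trans ((add_le_add h1 h2).trans ?_)
  have h3 : (J : ℝ) * ((4 * Real.exp 4 * C + 2) * (q : ℝ) ^ 2) ≤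
      (10 * el t) * ((4 * Real.exp 4 * C + 2) * (q : ℝ) ^ 2) :=
    mul_le_mul_of_nonneg_right hJ' (by positivity)
  have h4 : 1 ≤ (q : ℝ) ^ 2 * el t := one_le_mul_of_one_le_of_one_le hq2 he.le
  calc _ ≤ (q : ℝ) ^ 2 * el t + (10 * el t) * ((4 * Real.exp 4 * C + 2) * (q : ℝ) ^ 2) := by
        linarith
    _ = _ := by ring

private lemma npowGRO (q : ℕ) (hq : 1 ≤ q) (σ t : ℝ) (hσ : 1 / 2 ≤ σ)
    (J : ℕ) (hJ : ((q : ℝ) * (|t| + 3)) ^ 2 ≤ (2 : ℝ) ^ J) :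
    (q : ℝ) * (|t| + 3) * (((2 ^ J : ℕ) : ℝ)) ^ (-σ) ≤ 1 := by
  have hqR : (1 : ℝ) ≤ q := by exact_mod_cast hq
  have ht := abs_nonneg t
  have h1 : (((2 ^ J : ℕ) : ℝ)) ^ (-σ) ≤ (((2 ^ J : ℕ) : ℝ)) ^ (-(1 / 2) : ℝ) := by
    refine Real.rpow_le_rpow_of_exponent_le ?_ (by linarith)
    push_cast
    exact one_le_pow₀ (by norm_num)
  have h2 : (((2 ^ J : ℕ) : ℝ)) ^ (-(1 / 2) : ℝ) ≤ (((q : ℝ) * (|t| + 3)) ^ 2) ^ (-(1 / 2) : ℝ) := by
    refine Real.rpow_le_rpow_of_nonpos (by positivity) ?_ (by norm_num)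
    push_cast
    exact hJ
  have h3 : (((q : ℝ) * (|t| + 3)) ^ 2) ^ (-(1 / 2) : ℝ) = ((q : ℝ) * (|t| + 3))⁻¹ := by
    rw [← Real.rpow_natCast, ← Real.rpow_mul (by positivity), ← Real.rpow_neg_one]
    norm_num
  have h4 : (q : ℝ) * (|t| + 3) * ((q : ℝ) * (|t| + 3))⁻¹ = 1 := by
    refine mul_inv_cancel₀ ?_
    positivity
  calc _ ≤ (q : ℝ) * (|t| + 3) * ((q : ℝ) * (|t| + 3))⁻¹ := by
        refine mul_le_mul_of_nonneg_left ?_ (by positivity)
        rw [← h3]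
        exact h1.trans h2
    _ = 1 := h4

private lemma normsGRO (σ t : ℝ) (h0 : 0 ≤ σ) (h3 : σ ≤ 3) :
    ‖(σ : ℂ) + t * Complex.I‖ ≤ |t| + 3 := by
  refine (norm_add_le _ _).trans ?_
  rw [norm_mul, Complex.norm_I, mul_one, Complex.norm_real, Complex.norm_real,
    Real.norm_of_nonneg h0, Real.norm_eq_abs]
  linarith

private lemma zetaGRO (C : ℝ) (hC : 0 < C) (hE : ∀ (N N' q u : ℕ) (t : ℝ), N ≤ N' → N' ≤ 2 * N →
    1 ≤ q → 1 ≤ |t| → Real.exp (vv t) ≤ N →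
    ‖∑ n ∈ (Ioc N N').filter (fun n => n ≡ u [MOD q]), ch t n‖ ≤
      C * q * N * (1 / |t| + Real.exp (-(el t) ^ (1 / 2 : ℝ)))) (h2 : StAp2)
    (σ t : ℝ) (ht : 2 ≤ |t|) (hσ : 1 - 1 / (2 * vv t) ≤ σ) (hσ3 : σ ≤ 3) :
    ‖riemannZeta (σ + t * Complex.I)‖ ≤
      (1 + 10 * (4 * Real.exp 4 * C + 2) + (2 + 4 * Real.exp 4)) * el t := by
  have he := elGRO t ht
  have hv := vvGRO t ht
  have hσ0 : 1 / 2 ≤ σ := by
    have : 1 / (2 * vv t) ≤ 1 / 2 := by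
      apply one_div_le_one_div_of_le (by norm_num)
      linarith
    linarith
  obtain ⟨J, hJ1, hJ2, hJ3⟩ := cutGRO 1 le_rfl t ht (by simp; linarith)
  have hs := sumGRO C hC hE 1 (1 : DirichletCharacter ℂ 1) σ t ht hσ J hJ2 hJ3
  have hs1 : ∑ n ∈ Icc 1 ((2 : ℕ) ^ J), (1 : DirichletCharacter ℂ 1) (n : ZMod 1) *
      (n : ℂ) ^ (-((σ : ℂ) + t * Complex.I)) =
      ∑ n ∈ Icc 1 ((2 : ℕ) ^ J), (n : ℂ) ^ (-((σ : ℂ) + t * Complex.I)) := by
    refine sum_congr rfl fun n _ => ?_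
    rw [MulChar.one_apply (isUnit_of_subsingleton _), one_mul]
  rw [hs1] at hs
  have ht0 : t ≠ 0 := by
    rintro rfl
    simp at ht
    linarith
  have hne : (σ : ℂ) + t * Complex.I ≠ 1 := by
    intro h
    have := congrArg Complex.im h
    simp at this
    exact ht0 this
  have h3 := h2 (σ + t * Complex.I) (2 ^ J) hne (by simpa using hσ0) (Nat.one_le_two_pow)
  have hre : ((σ : ℂ) + t * Complex.I).re = σ := by simp
  rw [hre] at h3
  have h4 := npowGRO 1 le_rfl σ t hσ0 J hJ1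
  have h5 := normsGRO σ t (by linarith) hσ3
  have h6 : 2 * ‖(σ : ℂ) + t * Complex.I‖ * (((2 ^ J : ℕ) : ℝ)) ^ (-σ) ≤ 2 := by
    have h7 : 0 ≤ (((2 ^ J : ℕ) : ℝ)) ^ (-σ) := by positivity
    push_cast at h4 h7 ⊢
    nlinarith
  have h8 : ‖(((2 ^ J : ℕ) : ℂ)) ^ (1 - ((σ : ℂ) + t * Complex.I)) /
      ((σ : ℂ) + t * Complex.I - 1)‖ ≤ 4 * Real.exp 4 := by
    rw [norm_div]
    have h9 : ‖(((2 ^ J : ℕ) : ℂ)) ^ (1 - ((σ : ℂ) + t * Complex.I))‖ =
        ((2 : ℝ) ^ J) ^ (1 - σ) := by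
      rw [Complex.norm_natCast_cpow_of_pos (by positivity)]
      push_cast
      simp
    have h10 : |t| ≤ ‖(σ : ℂ) + t * Complex.I - 1‖ := by
      have := Complex.abs_im_le_norm ((σ : ℂ) + t * Complex.I - 1)
      simpa using this
    have h11 := powGRO ((2 : ℝ) ^ J) σ t ht hσ (one_le_pow₀ (by norm_num)) _ hJ2
    have hk := keyGRO t ht
    have htp : 0 < |t| := by linarith
    rw [h9]
    calc _ ≤ Real.exp (5 * el t / (2 * vv t)) / |t| := by
          exact div_le_div₀ (Real.exp_pos _).le h11 htp h10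
      _ = 1 / |t| * Real.exp (5 * el t / (2 * vv t)) := by ring
      _ ≤ (1 / |t| + Real.exp (-(el t) ^ (1 / 2 : ℝ))) * Real.exp (5 * el t / (2 * vv t)) := by
          refine mul_le_mul_of_nonneg_right ?_ (Real.exp_pos _).le
          linarith [Real.exp_pos (-(el t) ^ (1 / 2 : ℝ))]
      _ ≤ _ := hk
  have h12 : riemannZeta (σ + t * Complex.I) =
      (riemannZeta (σ + t * Complex.I) -
        ∑ n ∈ Icc 1 ((2 : ℕ) ^ J), (n : ℂ) ^ (-((σ : ℂ) + t * Complex.I)) -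
          (((2 ^ J : ℕ) : ℂ)) ^ (1 - ((σ : ℂ) + t * Complex.I)) /
            ((σ : ℂ) + t * Complex.I - 1)) +
      ∑ n ∈ Icc 1 ((2 : ℕ) ^ J), (n : ℂ) ^ (-((σ : ℂ) + t * Complex.I)) +
      (((2 ^ J : ℕ) : ℂ)) ^ (1 - ((σ : ℂ) + t * Complex.I)) /
        ((σ : ℂ) + t * Complex.I - 1) := by ring
  rw [h12]
  refine (norm_add₃_le).trans ?_
  have h13 := h3.trans h6
  have he4 := Real.exp_pos 4
  simp only [Nat.cast_one, one_pow, mul_one] at hs
  nlinarith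

private lemma omegaGRO (q : ℕ) (hq : 1 ≤ q) : 2 ^ q.primeFactors.card ≤ q := by
  calc 2 ^ q.primeFactors.card = ∏ p ∈ q.primeFactors, 2 := by simp
    _ ≤ ∏ p ∈ q.primeFactors, p := prod_le_prod' fun p hp => (Nat.prime_of_mem_primeFactors hp).two_le
    _ ≤ q := Nat.le_of_dvd hq (Nat.prod_primeFactors_dvd q)

theorem hGRO (h1 : StAp1) (h2 : StAp2) (h3 : StEs1) : StGro := by
  obtain ⟨C, hC, hE⟩ := h3
  set D : ℝ := 1 + 10 * (4 * Real.exp 4 * C + 2) + (4 + 4 * Real.exp 4) with hD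
  have he4 := Real.exp_pos 4
  have hD1 : 1 ≤ D := by
    have : 0 ≤ 10 * (4 * Real.exp 4 * C + 2) + (4 + 4 * Real.exp 4) := by positivity
    linarith
  refine ⟨D, hD1, ?_⟩
  intro q _ χ σ t ht hl hσ hσ3
  have he := elGRO t ht
  have hv := vvGRO t ht
  have hq : 1 ≤ q := Nat.pos_of_ne_zero (NeZero.ne q)
  have hqR : (1 : ℝ) ≤ q := by exact_mod_cast hq
  have hq3 : (q : ℝ) ^ 2 ≤ (q : ℝ) ^ 3 := pow_le_pow_right₀ hqR (by norm_num)
  have hq13 : (q : ℝ) ≤ (q : ℝ) ^ 3 := le_self_pow₀ hqR (by norm_num)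
  have hσ0 : 1 / 2 ≤ σ := by
    have : 1 / (2 * vv t) ≤ 1 / 2 := by
      apply one_div_le_one_div_of_le (by norm_num)
      linarith
    linarith
  have ht0 : t ≠ 0 := by
    rintro rfl
    simp at ht
    linarith
  have hne : (σ : ℂ) + t * Complex.I ≠ 1 := by
    intro h
    have := congrArg Complex.im h
    simp at this
    exact ht0 this
  have hre : ((σ : ℂ) + t * Complex.I).re = σ := by simp
  by_cases hχ : χ = 1
  · subst hχ
    have hz := zetaGRO C hC hE h2 σ t ht hσ hσ3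
    have hL := DirichletCharacter.LFunctionTrivChar_eq_mul_riemannZeta (N := q) hne
    rw [DirichletCharacter.LFunctionTrivChar] at hL
    rw [hL, norm_mul, norm_prod]
    have h4 : ∏ p ∈ q.primeFactors, ‖(1 - (p : ℂ) ^ (-((σ : ℂ) + t * Complex.I)))‖ ≤ q := by
      calc _ ≤ ∏ p ∈ q.primeFactors, (2 : ℝ) := by
            refine prod_le_prod (fun _ _ => norm_nonneg _) fun p hp => ?_
            have hp0 : 0 < p := (Nat.prime_of_mem_primeFactors hp).pos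
            refine (norm_sub_le _ _).trans ?_
            rw [norm_one, Complex.norm_natCast_cpow_of_pos hp0]
            have : (p : ℝ) ^ (-((σ : ℂ) + t * Complex.I)).re ≤ 1 := by
              refine Real.rpow_le_one_of_one_le_of_nonpos (by exact_mod_cast hp0) ?_
              simp
              linarith
            linarith
        _ = ((2 ^ q.primeFactors.card : ℕ) : ℝ) := by simp
        _ ≤ q := by exact_mod_cast omegaGRO q hq
    calc _ ≤ (q : ℝ) * ((1 + 10 * (4 * Real.exp 4 * C + 2) + (2 + 4 * Real.exp 4)) * el t) :=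
          mul_le_mul h4 hz (norm_nonneg _) (by positivity)
      _ ≤ (q : ℝ) ^ 3 * (D * el t) := by
          refine mul_le_mul hq13 ?_ (by positivity) (by positivity)
          refine mul_le_mul_of_nonneg_right ?_ (by linarith)
          rw [hD]
          linarith
      _ = _ := by ring
  · obtain ⟨J, hJ1, hJ2, hJ3⟩ := cutGRO q hq t ht hl
    have hs := sumGRO C hC hE q χ σ t ht hσ J hJ2 hJ3
    have h3 := h1 q χ (σ + t * Complex.I) (2 ^ J) hχ (by simpa using hσ0) (Nat.one_le_two_pow)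
    rw [hre] at h3
    have h4 := npowGRO q hq σ t hσ0 J hJ1
    have h5 := normsGRO σ t (by linarith) hσ3
    have h6 : 4 * q * ‖(σ : ℂ) + t * Complex.I‖ * (((2 ^ J : ℕ) : ℝ)) ^ (-σ) ≤ 4 := by
      have h7 : 0 ≤ (q : ℝ) * (((2 ^ J : ℕ) : ℝ)) ^ (-σ) := by positivity
      calc _ = 4 * (‖(σ : ℂ) + t * Complex.I‖ * ((q : ℝ) * (((2 ^ J : ℕ) : ℝ)) ^ (-σ))) := by ring
        _ ≤ 4 * ((|t| + 3) * ((q : ℝ) * (((2 ^ J : ℕ) : ℝ)) ^ (-σ))) := by gcongr
        _ = 4 * ((q : ℝ) * (|t| + 3) * (((2 ^ J : ℕ) : ℝ)) ^ (-σ)) := by ring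
        _ ≤ 4 := by linarith
    have h12 : DirichletCharacter.LFunction χ (σ + t * Complex.I) =
        (DirichletCharacter.LFunction χ (σ + t * Complex.I) -
          ∑ n ∈ Icc 1 ((2 : ℕ) ^ J), χ (n : ZMod q) * (n : ℂ) ^ (-((σ : ℂ) + t * Complex.I))) +
        ∑ n ∈ Icc 1 ((2 : ℕ) ^ J), χ (n : ZMod q) * (n : ℂ) ^ (-((σ : ℂ) + t * Complex.I)) := by ring
    rw [h12]
    refine (norm_add_le _ _).trans ((add_le_add (h3.trans h6) hs).trans ?_)
    have h7 : (1 : ℝ) ≤ (q : ℝ) ^ 2 := one_le_pow₀ hqR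
    have h8 : 1 ≤ (q : ℝ) ^ 2 * el t := one_le_mul_of_one_le_of_one_le h7 he.le
    calc _ ≤ 4 * ((q : ℝ) ^ 2 * el t) +
          (1 + 10 * (4 * Real.exp 4 * C + 2)) * (q : ℝ) ^ 2 * el t := by linarith
      _ = (1 + 10 * (4 * Real.exp 4 * C + 2) + 4) * ((q : ℝ) ^ 2 * el t) := by ring
      _ ≤ D * ((q : ℝ) ^ 3 * el t) := by
          refine mul_le_mul ?_ ?_ (by positivity) (by linarith)
          · rw [hD]
            linarith
          · exact mul_le_mul_of_nonneg_right hq3 (by linarith)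
      _ = _ := by ring

end Pool.Agent.Helper45.GK
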