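import Pool.Agent.Helper23.GK.StC

/-!
# Project GK, module INV: bound for `1/L(s, χ)`
-/

set_option autoImplicit false

namespace Pool.Agent.Helper45.GK

open Finset ArithmeticFunction
open Pool.Agent.Helper23.GK
open Pool.Agent.Helper2.MR (ch)

private lemma elINV (t : ℝ) (ht : 10 ≤ |t|) : 2 < el t := by
  unfold el
  rw [Real.lt_log_iff_exp_lt (by positivity)]
  have h1 := Real.exp_one_lt_d9
  have h2 : Real.exp 2 = Real.exp 1 ^ 2 := by
    rw [← Real.exp_nat_mul]
    norm_num
  rw [h2]
  nlinarith [Real.exp_pos 1]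

private lemma nbhINV (t t' : ℝ) (h : |t' - t| ≤ 1 / 2) :
    el t - 1 ≤ el t' ∧ el t' ≤ el t + 1 := by
  have h1 : |t'| ≤ |t| + 1 / 2 := by
    have := abs_sub_abs_le_abs_sub t' t
    linarith
  have h2 : |t| ≤ |t'| + 1 / 2 := by
    have := abs_sub_abs_le_abs_sub t t'
    rw [abs_sub_comm] at this
    linarith
  have he := Real.exp_one_gt_d9
  have ht := abs_nonneg t
  have ht' := abs_nonneg t'
  unfold el
  constructor
  · have h3 : Real.log (|t| + 3) ≤ Real.log ((|t'| + 3) * Real.exp 1) :=
      Real.log_le_log (by positivity) (by nlinarith)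
    rw [Real.log_mul (by positivity) (Real.exp_pos 1).ne', Real.log_exp] at h3
    linarith
  · have h3 : Real.log (|t'| + 3) ≤ Real.log ((|t| + 3) * Real.exp 1) :=
      Real.log_le_log (by positivity) (by nlinarith)
    rw [Real.log_mul (by positivity) (Real.exp_pos 1).ne', Real.log_exp] at h3
    linarith

private lemma vvINV (t t' : ℝ) (ht : 10 ≤ |t|) (h : |t' - t| ≤ 1 / 2) : vv t' ≤ 2 * vv t := by
  have h1 := elINV t ht
  have h2 := nbhINV t t' h
  unfold vv
  calc el t' ^ (9 / 10 : ℝ) ≤ (2 * el t) ^ (9 / 10 : ℝ) :=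
        Real.rpow_le_rpow (by linarith) (by linarith) (by norm_num)
    _ = 2 ^ (9 / 10 : ℝ) * el t ^ (9 / 10 : ℝ) := Real.mul_rpow (by norm_num) (by linarith)
    _ ≤ 2 * el t ^ (9 / 10 : ℝ) := by
        refine mul_le_mul_of_nonneg_right ?_ (Real.rpow_nonneg (by linarith) _)
        calc (2 : ℝ) ^ (9 / 10 : ℝ) ≤ 2 ^ (1 : ℝ) :=
              Real.rpow_le_rpow_of_exponent_le (by norm_num) (by norm_num)
          _ = 2 := Real.rpow_one 2

private lemma YINV (q : ℕ) (hq : 1 ≤ q) (t : ℝ) (ht : 10 ≤ |t|) : 6 ≤ 3 * q * el t := by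
  have hqR : (1 : ℝ) ≤ q := by exact_mod_cast hq
  have := elINV t ht
  nlinarith

private lemma logYINV (q : ℕ) (hq : 1 ≤ q) (t : ℝ) (ht : 10 ≤ |t|) :
    1 ≤ Real.log (3 * q * el t) := by
  have h := YINV q hq t ht
  rw [Real.le_log_iff_exp_le (by linarith)]
  have := Real.exp_one_lt_d9
  linarith

private lemma wqINV (q : ℕ) (hq : 1 ≤ q) (t t' : ℝ) (ht : 10 ≤ |t|) (h : |t' - t| ≤ 1 / 2) :
    wq q t' ≤ 4 * wq q t := by
  have h1 := elINV t ht
  have h2 := nbhINV t t' h
  have h3 := vvINV t t' ht h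
  have hqR : (1 : ℝ) ≤ q := by exact_mod_cast hq
  have hY := YINV q hq t ht
  have hl := logYINV q hq t ht
  have h4 : Real.log (3 * q * el t') ≤ 2 * Real.log (3 * q * el t) := by
    calc Real.log (3 * q * el t') ≤ Real.log (2 * (3 * q * el t)) := by
          refine Real.log_le_log ?_ ?_
          · have : 0 < el t' := by linarith
            positivity
          · have h5 : el t' ≤ 2 * el t := by linarith
            have h6 : (0 : ℝ) ≤ 3 * q := by positivity
            nlinarith
      _ = Real.log 2 + Real.log (3 * q * el t) := Real.log_mul (by norm_num) (by linarith)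
      _ ≤ _ := by
          have := Real.log_two_lt_d9
          linarith
  have h0 : 0 ≤ vv t := Real.rpow_nonneg (by linarith) _
  unfold wq
  have h7 : 0 ≤ Real.log (3 * q * el t') := by
    refine Real.log_nonneg ?_
    have : 1 ≤ el t' := by linarith
    nlinarith
  calc vv t' * Real.log (3 * q * el t') ≤ (2 * vv t) * (2 * Real.log (3 * q * el t)) :=
        mul_le_mul h3 h4 h7 (by positivity)
    _ = _ := by ring

private lemma vvwINV (q : ℕ) (hq : 1 ≤ q) (t : ℝ) (ht : 10 ≤ |t|) :
    1 ≤ vv t ∧ vv t ≤ wq q t ∧ wq q t ≤ (3 * q * el t) ^ 2 := by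
  have h1 := elINV t ht
  have hqR : (1 : ℝ) ≤ q := by exact_mod_cast hq
  have hY := YINV q hq t ht
  have hl := logYINV q hq t ht
  have hv : 1 ≤ vv t := Real.one_le_rpow (by linarith) (by norm_num)
  refine ⟨hv, ?_, ?_⟩
  · unfold wq
    nlinarith
  · unfold wq
    have h2 : vv t ≤ 3 * q * el t := by
      calc vv t ≤ el t ^ (1 : ℝ) := Real.rpow_le_rpow_of_exponent_le (by linarith) (by norm_num)
        _ = el t := Real.rpow_one _
        _ ≤ _ := by nlinarith
    have h3 : Real.log (3 * q * el t) ≤ 3 * q * el t := Real.log_le_self (by linarith)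
    rw [pow_two]
    exact mul_le_mul h2 h3 (by linarith) (by linarith)

theorem hINV (hZ : StZfr) (hB : StBca) (hT : StTfo) (hG : StGro) : StInv := by
  obtain ⟨c0, hc0, hc1, hZ⟩ := hZ
  obtain ⟨-, -, hT⟩ := hT
  obtain ⟨C, hC, hG⟩ := hG
  set c : ℝ := c0 / 32 with hc
  have hcp : 0 < c := by positivity
  have hc32 : c ≤ 1 / 32 := by rw [hc]; linarith
  -- a power of 6
  obtain ⟨n, hn⟩ : ∃ n : ℕ, 2 * C * (1 / c + 1) < 6 ^ n := pow_unbounded_of_one_lt _ (by norm_num)
  refine ⟨c, hcp, by linarith, 5 * n + 14, ?_⟩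
  intro q _ χ σ t ht hl hσ hσ2
  have hq : 1 ≤ q := Nat.pos_of_ne_zero (NeZero.ne q)
  have hqR : (1 : ℝ) ≤ q := by exact_mod_cast hq
  have ht10 : 10 ≤ |t| := by linarith
  have hel := elINV t ht10
  obtain ⟨hv1, hvW, hWY⟩ := vvwINV q hq t ht10
  have hY := YINV q hq t ht10
  set Y : ℝ := 3 * q * el t with hYd
  set W : ℝ := wq q t with hW
  have hW1 : 1 ≤ W := by linarith
  have hY1 : 1 ≤ Y := by linarith
  have hcW : c / W ≤ 1 / 32 := by
    rw [div_le_iff₀ (by linarith)]
    nlinarith
  have hcWp : 0 < c / W := by positivity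
  have hYn : 2 * C * (1 / c + 1) ≤ Y ^ n := hn.le.trans (pow_le_pow_left₀ (by norm_num) hY n)
  -- W/c+1 is at most Y^(n+2)
  have hWc : W / c + 1 ≤ Y ^ (n + 2) := by
    have h1 : 1 / c + 1 ≤ Y ^ n := by
      have : 0 ≤ 1 / c + 1 := by positivity
      nlinarith
    calc W / c + 1 ≤ (1 / c + 1) * W := by
          have : (1 / c + 1) * W = W / c + W := by ring
          linarith
      _ ≤ Y ^ n * Y ^ 2 := mul_le_mul h1 hWY (by linarith) (by positivity)
      _ = _ := by rw [pow_add]
  by_cases hcase : 1 + c / W ≤ σ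
  · have hre : 1 < ((σ : ℂ) + t * Complex.I).re := by
      simp
      linarith
    obtain ⟨h1, h2⟩ := hT q χ (σ + t * Complex.I) hre
    refine ⟨h1, h2.trans ?_⟩
    have h3 : ((σ : ℂ) + t * Complex.I).re = σ := by simp
    rw [h3] at hre ⊢
    have h4 : σ / (σ - 1) = 1 / (σ - 1) + 1 := by
      have : σ - 1 ≠ 0 := by linarith
      field_simp
      ring
    rw [h4]
    have h5 : 1 / (σ - 1) ≤ W / c := by
      have : W / c = 1 / (c / W) := by field_simp
      rw [this]
      exact one_div_le_one_div_of_le hcWp (by linarith)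
    calc 1 / (σ - 1) + 1 ≤ W / c + 1 := by linarith
      _ ≤ Y ^ (n + 2) := hWc
      _ ≤ Y ^ (5 * n + 14) := pow_le_pow_right₀ hY1 (by omega)
  · push Not at hcase
    set s0 : ℂ := ((1 + c / W : ℝ) : ℂ) + t * Complex.I with hs0
    have hs0re : s0.re = 1 + c / W := by simp [hs0]
    have hs0im : s0.im = t := by simp [hs0]
    set r : ℝ := 4 * (c / W) with hr
    have hrp : 0 < r := by positivity
    -- points of the ball
    have hball : ∀ s ∈ Metric.ball s0 r, |s.im - t| ≤ 1 / 2 ∧ 1 - 3 * (c / W) ≤ s.re ∧ s.re ≤ 3 := by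
      intro s hs
      rw [Metric.mem_ball, dist_eq_norm] at hs
      have h1 := (Complex.abs_re_le_norm (s - s0)).trans hs.le
      have h2 := (Complex.abs_im_le_norm (s - s0)).trans hs.le
      rw [Complex.sub_re, hs0re] at h1
      rw [Complex.sub_im, hs0im] at h2
      rw [abs_le] at h1
      refine ⟨h2.trans (by rw [hr]; linarith), by linarith [h1.1], ?_⟩
      have := h1.2
      rw [hr] at this
      linarith
    have hsform : ∀ s : ℂ, s = ((s.re : ℝ) : ℂ) + ((s.im : ℝ) : ℂ) * Complex.I := fun s =>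
      (Complex.re_add_im s).symm
    have him : ∀ s ∈ Metric.ball s0 r, 10 ≤ |s.im| := by
      intro s hs
      have h1 := (hball s hs).1
      have h2 := abs_sub_abs_le_abs_sub t s.im
      rw [abs_sub_comm] at h2
      linarith
    have hnz : ∀ s ∈ Metric.ball s0 r, DirichletCharacter.LFunction χ s ≠ 0 := by
      intro s hs
      obtain ⟨h1, h2, h3⟩ := hball s hs
      have h4 := him s hs
      have h5 := nbhINV t s.im h1
      have h6 := wqINV q hq t s.im ht10 h1
      have h7 : 0 < wq q s.im := by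
        have := vvwINV q hq s.im h4
        linarith [this.1, this.2.1]
      rw [hsform s]
      refine hZ q χ s.re s.im h4 (by linarith [h5.1]) ?_
      have h8 : 3 * (c / W) ≤ c0 / wq q s.im := by
        rw [le_div_iff₀ h7]
        calc 3 * (c / W) * wq q s.im ≤ 3 * (c / W) * (4 * W) :=
              mul_le_mul_of_nonneg_left h6 (by positivity)
          _ = 12 * c := by field_simp; ring
          _ ≤ c0 := by rw [hc]; linarith
      linarith
    have hup : ∀ s ∈ Metric.ball s0 r, ‖DirichletCharacter.LFunction χ s‖ ≤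
        2 * C * Y ^ 4 := by
      intro s hs
      obtain ⟨h1, h2, h3⟩ := hball s hs
      have h4 := him s hs
      have h5 := nbhINV t s.im h1
      have h6 := vvINV t s.im ht10 h1
      have h7 : 1 ≤ vv s.im := (vvwINV q hq s.im h4).1
      have h8 := hG q χ s.re s.im (by linarith) (by linarith [h5.1]) (by
        have h9 : 3 * (c / W) ≤ 1 / (2 * vv s.im) := by
          rw [le_div_iff₀ (by linarith)]
          calc 3 * (c / W) * (2 * vv s.im) ≤ 3 * (c / W) * (4 * W) :=
                mul_le_mul_of_nonneg_left (by linarith) (by positivity)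
            _ = 12 * c := by field_simp; ring
            _ ≤ 1 := by linarith
        linarith) h3
      rw [← hsform s] at h8
      refine h8.trans ?_
      have h9 : el s.im ≤ 2 * el t := by linarith [h5.2]
      have h10 : (q : ℝ) ≤ Y := by
        rw [hYd]
        nlinarith
      have h11 : el t ≤ Y := by
        rw [hYd]
        nlinarith
      have h12 : (q : ℝ) ^ 3 ≤ Y ^ 3 := pow_le_pow_left₀ (by linarith) h10 3
      calc C * (q : ℝ) ^ 3 * el s.im ≤ C * Y ^ 3 * (2 * Y) := by
            refine mul_le_mul (mul_le_mul_of_nonneg_left h12 (by linarith)) (by linarith)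
              (by linarith [h5.1]) (by positivity)
        _ = _ := by ring
    have hs0b : s0 ∈ Metric.ball s0 r := Metric.mem_ball_self hrp
    have hs0re1 : 1 < s0.re := by rw [hs0re]; linarith
    obtain ⟨hL0, hL0i⟩ := hT q χ s0 hs0re1
    have hL0i' : ‖(DirichletCharacter.LFunction χ s0)⁻¹‖ ≤ W / c + 1 := by
      refine hL0i.trans (le_of_eq ?_)
      rw [hs0re, add_sub_cancel_left]
      have hW0 : W ≠ 0 := by linarith
      have hc0' : c ≠ 0 := hcp.ne'
      field_simp
    set M : ℝ := ((2 * n + 6 : ℕ) : ℝ) * Real.log Y with hM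
    have hYp : 0 < Y := by linarith
    have hlY : 0 < Real.log Y := Real.log_pos (by linarith)
    have hMp : 0 < M := by positivity
    have heM : Real.exp M = Y ^ (2 * n + 6) := by
      rw [hM, Real.exp_nat_mul, Real.exp_log hYp]
    have hbd : ∀ s ∈ Metric.ball s0 r, ‖DirichletCharacter.LFunction χ s‖ ≤
        Real.exp M * ‖DirichletCharacter.LFunction χ s0‖ := by
      intro s hs
      have h1 := hup s hs
      have h2 : 1 ≤ (W / c + 1) * ‖DirichletCharacter.LFunction χ s0‖ := by
        have h3 : ‖(DirichletCharacter.LFunction χ s0)⁻¹‖ * ‖DirichletCharacter.LFunction χ s0‖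
            = 1 := by
          rw [← norm_mul, inv_mul_cancel₀ hL0, norm_one]
        calc (1 : ℝ) = ‖(DirichletCharacter.LFunction χ s0)⁻¹‖ *
              ‖DirichletCharacter.LFunction χ s0‖ := h3.symm
          _ ≤ _ := mul_le_mul_of_nonneg_right hL0i' (norm_nonneg _)
      have h4 : 2 * C ≤ Y ^ n := by
        have : 0 ≤ 1 / c := by positivity
        nlinarith
      calc ‖DirichletCharacter.LFunction χ s‖ ≤ 2 * C * Y ^ 4 := h1
        _ ≤ 2 * C * Y ^ 4 * ((W / c + 1) * ‖DirichletCharacter.LFunction χ s0‖) :=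
            le_mul_of_one_le_right (by positivity) h2
        _ ≤ Y ^ n * Y ^ 4 * (Y ^ (n + 2) * ‖DirichletCharacter.LFunction χ s0‖) := by
            gcongr
        _ = _ := by rw [heM]; ring
    have hdiff : DifferentiableOn ℂ (DirichletCharacter.LFunction χ) (Metric.ball s0 r) := by
      intro s hs
      refine (DirichletCharacter.differentiableAt_LFunction χ s (Or.inl ?_)).differentiableWithinAt
      rintro rfl
      have := him 1 hs
      simp at this
      linarith
    have hfin := hB (DirichletCharacter.LFunction χ) s0 r M (1 / 2) hrp hMp (by norm_num)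
      (by norm_num) hdiff hnz hbd (σ + t * Complex.I) (by
        have h1 : (σ : ℂ) + t * Complex.I - s0 = ((σ - (1 + c / W) : ℝ) : ℂ) := by
          rw [hs0]
          push_cast
          ring
        rw [h1, Complex.norm_real, Real.norm_eq_abs, abs_le, hr]
        constructor <;> linarith)
    have hmem : (σ : ℂ) + t * Complex.I ∈ Metric.ball s0 r := by
      rw [Metric.mem_ball, dist_eq_norm]
      have h1 : (σ : ℂ) + t * Complex.I - s0 = ((σ - (1 + c / W) : ℝ) : ℂ) := by
        rw [hs0]
        push_cast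
        ring
      rw [h1, Complex.norm_real, Real.norm_eq_abs, abs_lt, hr]
      constructor <;> linarith
    refine ⟨hnz _ hmem, hfin.trans ?_⟩
    have h1 : 2 * M * (1 / 2) / (1 - 1 / 2) = M + M := by ring
    rw [h1, Real.exp_add, heM]
    calc Y ^ (2 * n + 6) * Y ^ (2 * n + 6) * ‖(DirichletCharacter.LFunction χ s0)⁻¹‖
        ≤ Y ^ (2 * n + 6) * Y ^ (2 * n + 6) * Y ^ (n + 2) :=
          mul_le_mul_of_nonneg_left (hL0i'.trans hWc) (by positivity)
      _ = Y ^ (5 * n + 14) := by ring

end Pool.Agent.Helper45.GK
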